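import Pool.Agent.Helper37.LFU.QAB
import Pool.Agent.Helper71.LF.FIN

/-!
# Packet LFU-FIN (MP_c307ca_nt)
-/

set_option autoImplicit false

open Finset
open scoped Classical

namespace Pool.Agent.Helper37.LFU

open Pool.Agent.Helper98.Lang Pool.Agent.Helper73.LF Pool.Agent.Helper92.LFU
open Pool.Agent.Helper87.MD Pool.Agent.Helper8.Lang

/-- `24 (A log K) ^ e ≤ c K ^ κ` for large `K`. -/
lemma log_small (A e c κ : ℝ) (hA : 0 < A) (hc : 0 < c) (hκ : 0 < κ) :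
    ∃ N : ℕ, 2 ≤ N ∧ ∀ K : ℕ, N ≤ K →
      24 * (A * Real.log K) ^ e ≤ c * (K : ℝ) ^ κ := by
  have hme : 0 < A ^ e := Real.rpow_pos_of_pos hA _
  have h1 := isLittleO_log_rpow_rpow_atTop (s := κ) e hκ
  have h2 := h1.def (c := c / (24 * A ^ e)) (by positivity)
  have h3 := tendsto_natCast_atTop_atTop (R := ℝ) |>.eventually h2
  obtain ⟨N, hN⟩ := Filter.eventually_atTop.1 h3
  refine ⟨max N 2, le_max_right _ _, ?_⟩
  intro H hH
  have hH1 : N ≤ H := le_trans (le_max_left _ _) hH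
  have hH2 : 2 ≤ H := le_trans (le_max_right _ _) hH
  have hH3 : (0 : ℝ) < H := by exact_mod_cast (by omega : 0 < H)
  have hl := Pool.Agent.Helper71.LF.log_pos hH2
  have h4 := hN H hH1
  rw [Real.norm_of_nonneg (Real.rpow_nonneg hl.le _),
    Real.norm_of_nonneg (Real.rpow_nonneg hH3.le _)] at h4
  rw [Real.mul_rpow hA.le hl.le]
  have h5 : 24 * (A ^ e * Real.log H ^ e) ≤
      24 * (A ^ e * (c / (24 * A ^ e) * (H : ℝ) ^ κ)) := by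
    gcongr
  refine h5.trans (le_of_eq ?_)
  field_simp

lemma PM_nonneg' {m : ℕ} (x : Fin m → ℝ) (M h : ℕ) : 0 ≤ PM x M h := by
  rw [PM]
  refine Finset.prod_nonneg fun i _ => ?_
  have := nd_nonneg (h * x i)
  positivity

/-- **LFU-FIN** -/
theorem finu (hS : GSch) (hC : CntStmt) (hF : GFou1) (hB : GBlkU) (hL : GLog) : StmtG := by
  intro e he
  refine ⟨16 * (1 + 1 / e) + 1, ?_⟩
  intro m x hm halg hind c A α hc hAα
  have hSx : SchP x := hS m x halg hind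
  have hnd : ∀ h : ℕ, 1 ≤ h → ∀ i, 0 < nd (h * x i) := fun h hh i =>
    Pool.Agent.Helper71.LF.nd_pos hSx h hh i
  rcases lt_or_ge α 0 with hα | hα
  · refine ⟨2, fun M d s hN hs hsα => ?_⟩
    exfalso
    have hcast : ((M : ℝ) ^ m * d) = ((M ^ m * d : ℕ) : ℝ) := by push_cast; rfl
    rw [hcast] at hsα
    have h2 : (2 : ℝ) ≤ ((M ^ m * d : ℕ) : ℝ) := by exact_mod_cast hN
    have h3 : ((M ^ m * d : ℕ) : ℝ) ^ α < 1 := Real.rpow_lt_one_of_one_lt_of_neg (by linarith) hα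
    have h4 : (1 : ℝ) ≤ s := by exact_mod_cast hs
    linarith
  obtain ⟨κ, N1, hκ, hN1⟩ := hB m x hm hSx e c A α he hc hα hAα
  obtain ⟨N2, hN22, hN2⟩ := log_small (max A 1) e c κ (lt_of_lt_of_le one_pos (le_max_right _ _))
    hc hκ
  refine ⟨max N1 N2, ?_⟩
  intro M d s hN hs hsα Q hQ
  have hcast : ((M : ℝ) ^ m * d) = ((M ^ m * d : ℕ) : ℝ) := by push_cast; rfl
  rw [hcast] at hsα ⊢
  set Kn : ℕ := M ^ m * d with hKn
  have hKa : N1 ≤ Kn := le_trans (le_max_left _ _) hN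
  have hKb : N2 ≤ Kn := le_trans (le_max_right _ _) hN
  have hK2 : 2 ≤ Kn := le_trans hN22 hKb
  have hd : 1 ≤ d := by
    rcases Nat.eq_zero_or_pos d with h | h
    · rw [h, mul_zero] at hKn; omega
    · exact h
  have hKR : (2 : ℝ) ≤ (Kn : ℝ) := by exact_mod_cast hK2
  have hK0 : (0 : ℝ) < (Kn : ℝ) := by linarith
  have hlK : 0 < Real.log (Kn : ℝ) := Real.log_pos (by linarith)
  have hlQ : 0 < Real.log Q := Real.log_pos (by linarith)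
  have hlQe : 0 < Real.log Q ^ e := Real.rpow_pos_of_pos hlQ _
  have h1e : 0 < 1 / e := by positivity
  set X : ℕ := ⌊(Kn : ℝ) ^ A⌋₊ with hX
  set Qn : ℕ := ⌈Q⌉₊ with hQn
  have hQn2 : 2 ≤ Qn := by
    have h2 : Q ≤ Qn := Nat.le_ceil Q
    have h3 : (2 : ℝ) ≤ (Qn : ℝ) := hQ.trans h2
    exact_mod_cast h3
  -- the sets for one `q`
  let P : ℕ → Finset ((Fin m → ℕ) × ℕ) := fun q =>
    (Fintype.piFinset (fun _ : Fin m => Icc 1 M) ×ˢ range d).filter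
      (fun y : (Fin m → ℕ) × ℕ => ∃ p : ℤ,
        |((s : ℝ) * ∑ i, (y.1 i : ℝ) * x i + y.2) / d - (p : ℝ) / q|
          ≤ c / ((q : ℝ) ^ 2 * Real.log q ^ (1 + e)))
  set T : Set ((Fin m → ℕ) × ℕ) := {y : (Fin m → ℕ) × ℕ | (∀ i, 1 ≤ y.1 i ∧ y.1 i ≤ M) ∧ y.2 < d ∧
      ∃ (p : ℤ) (q : ℕ), Q ≤ q ∧ (q : ℝ) ≤ (Kn : ℝ) ^ A ∧
        |((s : ℝ) * ∑ i, (y.1 i : ℝ) * x i + y.2) / d - (p : ℝ) / (q : ℝ)|
          ≤ c / ((q : ℝ) ^ 2 * Real.log (q : ℝ) ^ (1 + e))} with hT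
  have hsub : T ⊆ (((Icc Qn X).biUnion P : Finset ((Fin m → ℕ) × ℕ)) :
      Set ((Fin m → ℕ) × ℕ)) := by
    rintro y ⟨ha, hb, p, q, hq1, hq2, hq3⟩
    rw [Finset.mem_coe, Finset.mem_biUnion]
    refine ⟨q, Finset.mem_Icc.2 ⟨Nat.ceil_le.2 hq1, Nat.le_floor hq2⟩, ?_⟩
    refine Finset.mem_filter.2 ⟨Finset.mem_product.2 ⟨?_, Finset.mem_range.2 hb⟩, p, hq3⟩
    rw [Fintype.mem_piFinset]
    intro i
    exact Finset.mem_Icc.2 (ha i)
  have hcard : (T.ncard : ℝ) ≤ ∑ q ∈ Icc Qn X, ((P q).card : ℝ) := by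
    have h1 := Set.ncard_le_ncard hsub (Finset.finite_toSet _)
    rw [Set.ncard_coe_finset] at h1
    have h2 := h1.trans Finset.card_biUnion_le
    exact_mod_cast h2
  refine hcard.trans ?_
  rcases lt_or_ge X Qn with hXQ | hXQ
  · rw [Finset.Icc_eq_empty (by omega), Finset.sum_empty]
    positivity
  -- bound for `log Q`
  have hlogQ : Real.log Q ≤ max A 1 * Real.log (Kn : ℝ) := by
    have h1 : Q ≤ (Kn : ℝ) ^ A := by
      have h2 : Q ≤ Qn := Nat.le_ceil Q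
      have h3 : (Qn : ℝ) ≤ X := by exact_mod_cast hXQ
      have h4 : (X : ℝ) ≤ (Kn : ℝ) ^ A := Nat.floor_le (Real.rpow_nonneg hK0.le _)
      linarith
    have h2 := Real.log_le_log (by linarith) h1
    rw [Real.log_rpow hK0] at h2
    have h3 : A * Real.log (Kn : ℝ) ≤ max A 1 * Real.log (Kn : ℝ) :=
      mul_le_mul_of_nonneg_right (le_max_left _ _) hlK.le
    linarith
  have hterm : ∀ q : ℕ, 2 ≤ q → 0 ≤ (d : ℝ) * tq e c q *
      ∑ h ∈ Ico 1 ⌊1 / (2 * et c e d q)⌋₊, PM x M (s * (h * (q / Nat.gcd d q))) := by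
    intro q hq
    have h1 := (Pool.Agent.Helper71.LF.tq_pos (e := e) hc hq).le
    have h2 : 0 ≤ ∑ h ∈ Ico 1 ⌊1 / (2 * et c e d q)⌋₊, PM x M (s * (h * (q / Nat.gcd d q))) :=
      Finset.sum_nonneg fun h _ => PM_nonneg' x M _
    positivity
  have hsum : ∑ q ∈ Icc Qn X, ((P q).card : ℝ) ≤
      ∑ q ∈ Icc Qn X, (16 * c * (Kn : ℝ) * (1 / ((q : ℝ) * Real.log q ^ (1 + e))) +
        24 * ((d : ℝ) * tq e c q *
          ∑ h ∈ Ico 1 ⌊1 / (2 * et c e d q)⌋₊, PM x M (s * (h * (q / Nat.gcd d q))))) := by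
    refine Finset.sum_le_sum fun q hq => ?_
    have h1 := oneq hC hF m x e c M d s q he hc hd hs (hQn2.trans (Finset.mem_Icc.1 hq).1) hnd
    rw [hcast] at h1
    refine h1.trans (le_of_eq ?_)
    rw [mul_one_div]
  refine hsum.trans ?_
  rw [Finset.sum_add_distrib, ← Finset.mul_sum, ← Finset.mul_sum]
  have hA' : ∑ q ∈ Icc Qn X, 1 / ((q : ℝ) * Real.log q ^ (1 + e)) ≤
      (1 + 1 / e) / Real.log Q ^ e := by
    refine (hL e he Qn X hQn2).trans ?_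
    have h2 : Real.log Q ≤ Real.log (Qn : ℝ) := Real.log_le_log (by linarith) (Nat.le_ceil Q)
    have h3 : Real.log Q ^ e ≤ Real.log (Qn : ℝ) ^ e := Real.rpow_le_rpow hlQ.le h2 he.le
    exact div_le_div_of_nonneg_left (by positivity) hlQe h3
  have hB' : ∑ q ∈ Icc Qn X, (d : ℝ) * tq e c q *
      ∑ h ∈ Ico 1 ⌊1 / (2 * et c e d q)⌋₊, PM x M (s * (h * (q / Nat.gcd d q))) ≤
      (Kn : ℝ) ^ (1 - κ) := by
    refine le_trans ?_ (hN1 M d s hKa hs hsα)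
    refine Finset.sum_le_sum_of_subset_of_nonneg ?_ (fun q hq _ => hterm q (Finset.mem_Icc.1 hq).1)
    intro q hq
    rw [Finset.mem_Icc] at hq ⊢
    exact ⟨hQn2.trans hq.1, hq.2⟩
  have hfin : 24 * (Kn : ℝ) ^ (1 - κ) ≤ c * (Kn : ℝ) / Real.log Q ^ e := by
    rw [le_div_iff₀ hlQe]
    have h1 : Real.log Q ^ e ≤ (max A 1 * Real.log (Kn : ℝ)) ^ e :=
      Real.rpow_le_rpow hlQ.le hlogQ he.le
    have h2 := hN2 Kn hKb
    have hKκ : 0 < (Kn : ℝ) ^ (1 - κ) := Real.rpow_pos_of_pos hK0 _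
    have h3 : (Kn : ℝ) ^ (1 - κ) * (Kn : ℝ) ^ κ = Kn := by
      rw [← Real.rpow_add hK0]; norm_num
    calc 24 * (Kn : ℝ) ^ (1 - κ) * Real.log Q ^ e
        ≤ 24 * (Kn : ℝ) ^ (1 - κ) * (max A 1 * Real.log (Kn : ℝ)) ^ e := by gcongr
      _ = (Kn : ℝ) ^ (1 - κ) * (24 * (max A 1 * Real.log (Kn : ℝ)) ^ e) := by ring
      _ ≤ (Kn : ℝ) ^ (1 - κ) * (c * (Kn : ℝ) ^ κ) := by gcongr
      _ = c * ((Kn : ℝ) ^ (1 - κ) * (Kn : ℝ) ^ κ) := by ring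
      _ = c * Kn := by rw [h3]
  have hcK : 0 ≤ 16 * c * (Kn : ℝ) := by positivity
  calc 16 * c * (Kn : ℝ) * ∑ q ∈ Icc Qn X, 1 / ((q : ℝ) * Real.log q ^ (1 + e)) +
        24 * ∑ q ∈ Icc Qn X, (d : ℝ) * tq e c q *
          ∑ h ∈ Ico 1 ⌊1 / (2 * et c e d q)⌋₊, PM x M (s * (h * (q / Nat.gcd d q)))
      ≤ 16 * c * (Kn : ℝ) * ((1 + 1 / e) / Real.log Q ^ e) + 24 * (Kn : ℝ) ^ (1 - κ) := by
        gcongr
    _ ≤ 16 * c * (Kn : ℝ) * ((1 + 1 / e) / Real.log Q ^ e) + c * (Kn : ℝ) / Real.log Q ^ e := by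
        gcongr
    _ = (16 * (1 + 1 / e) + 1) * c * (Kn : ℝ) / Real.log Q ^ e := by ring

end Pool.Agent.Helper37.LFU
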