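import Pool.Agent.Helper92.LFU.Goals
import Pool.Agent.Helper8.Lang.FEJ

/-!
# Packet LFU-QAB (MP_c307ca_nt): one denominator
-/

set_option autoImplicit false

open Finset
open scoped Classical

namespace Pool.Agent.Helper37.LFU

open Pool.Agent.Helper98.Lang Pool.Agent.Helper73.LF Pool.Agent.Helper92.LFU
open Pool.Agent.Helper87.MD Pool.Agent.Helper8.Lang

/-- the number of `a` in the box with `et < 1/2` and `nd (s a.x q') ≤ et` -/
lemma W_bound (hF : GFou1) (m : ℕ) (x : Fin m → ℝ) (η : ℝ) (M s q' : ℕ) (hη : 0 < η)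
    (hs : 1 ≤ s) (hq' : 1 ≤ q') (hx : ∀ h : ℕ, 1 ≤ h → ∀ i, 0 < nd (h * x i)) :
    (((Fintype.piFinset (fun _ : Fin m => Icc 1 M)).filter (fun a : Fin m → ℕ =>
        η < 1 / 2 ∧ nd (((s : ℝ) * ∑ i, (a i : ℝ) * x i) * (q' : ℝ)) ≤ η)).card : ℝ)
      ≤ 12 * η * (M : ℝ) ^ m +
        24 * η * ∑ h ∈ Ico 1 ⌊1 / (2 * η)⌋₊, PM x M (s * (h * q')) := by
  have hP : ∀ h : ℕ, 0 ≤ PM x M h := by
    intro h
    rw [PM]
    refine Finset.prod_nonneg fun i _ => ?_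
    have := nd_nonneg (h * x i)
    positivity
  have hsum : 0 ≤ ∑ h ∈ Ico 1 ⌊1 / (2 * η)⌋₊, PM x M (s * (h * q')) :=
    Finset.sum_nonneg fun h _ => hP _
  rcases lt_or_ge η (1 / 2) with hlt | hge
  · set T : ℕ := ⌊1 / (2 * η)⌋₊ with hT
    have hz1 : 1 ≤ 1 / (2 * η) := by
      rw [le_div_iff₀ (by positivity)]; linarith
    have hT1 : 1 ≤ T := by
      rw [hT, Nat.one_le_floor_iff]; exact hz1
    have hT0 : (0 : ℝ) < T := by exact_mod_cast hT1
    have hTle : (T : ℝ) ≤ 1 / (2 * η) := Nat.floor_le (by positivity)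
    have hTge : 1 / (2 * η) < T + 1 := Nat.lt_floor_add_one _
    have hT4 : 3 / (T : ℝ) ≤ 12 * η := by
      have h1 : 1 / (2 * η) ≤ 2 * T := by
        have : (1 : ℝ) ≤ T := by exact_mod_cast hT1
        linarith
      rw [div_le_iff₀ (by positivity)] at h1
      rw [div_le_iff₀ hT0]
      linarith
    have hηT : η ≤ 1 / (2 * T) := by
      rw [le_div_iff₀ (by positivity)] at hTle ⊢
      linarith
    have key := hF m M T (fun i => ((s * q' : ℕ) : ℝ) * x i) hT1 (by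
        intro h hh i
        have h1 : (h : ℝ) * (((s * q' : ℕ) : ℝ) * x i) = ((h * (s * q') : ℕ) : ℝ) * x i := by
          push_cast; ring
        rw [h1]
        exact hx _ (Nat.mul_pos hh (Nat.mul_pos hs hq')) i)
      ((Fintype.piFinset (fun _ : Fin m => Icc 1 M)).filter (fun a : Fin m → ℕ =>
        η < 1 / 2 ∧ nd (((s : ℝ) * ∑ i, (a i : ℝ) * x i) * (q' : ℝ)) ≤ η)) (by
        intro a ha
        rw [Finset.mem_filter, Fintype.mem_piFinset] at ha
        refine ⟨fun i => by simpa using ha.1 i, ?_⟩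
        have h1 : ∑ i, (a i : ℝ) * (((s * q' : ℕ) : ℝ) * x i) =
            ((s : ℝ) * ∑ i, (a i : ℝ) * x i) * (q' : ℝ) := by
          rw [Finset.mul_sum, Finset.sum_mul]
          refine Finset.sum_congr rfl fun i _ => ?_
          push_cast; ring
        rw [h1]
        exact ha.2.2.trans hηT)
    have hPM : ∀ h : ℕ, PM (fun i => ((s * q' : ℕ) : ℝ) * x i) M h = PM x M (s * (h * q')) := by
      intro h
      rw [PM, PM]
      refine Finset.prod_congr rfl fun i _ => ?_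
      have h1 : (h : ℝ) * (((s * q' : ℕ) : ℝ) * x i) = ((s * (h * q') : ℕ) : ℝ) * x i := by
        push_cast; ring
      rw [h1]
    simp only [hPM] at key
    refine key.trans ?_
    have hM : 0 ≤ (M : ℝ) ^ m := by positivity
    calc 3 / (T : ℝ) * ((M : ℝ) ^ m + 2 * ∑ h ∈ Ico 1 T, PM x M (s * (h * q')))
        ≤ 12 * η * ((M : ℝ) ^ m + 2 * ∑ h ∈ Ico 1 T, PM x M (s * (h * q'))) := by
          apply mul_le_mul_of_nonneg_right hT4
          linarith
      _ = _ := by ring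
  · have h0 : ((Fintype.piFinset (fun _ : Fin m => Icc 1 M)).filter (fun a : Fin m → ℕ =>
        η < 1 / 2 ∧ nd (((s : ℝ) * ∑ i, (a i : ℝ) * x i) * (q' : ℝ)) ≤ η)) = ∅ := by
      apply Finset.filter_false_of_mem
      intro a _ h
      linarith [h.1]
    rw [h0, Finset.card_empty, Nat.cast_zero]
    positivity

/-- **LFU-QAB** -/
theorem oneq (hC : CntStmt) (hF : GFou1) (m : ℕ) (x : Fin m → ℝ) (e c : ℝ) (M d s q : ℕ) :
    0 < e → 0 < c → 1 ≤ d → 1 ≤ s → 2 ≤ q → (∀ h : ℕ, 1 ≤ h → ∀ i, 0 < nd (h * x i)) →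
    (((Fintype.piFinset (fun _ : Fin m => Icc 1 M) ×ˢ range d).filter
        (fun y : (Fin m → ℕ) × ℕ => ∃ p : ℤ,
          |((s : ℝ) * ∑ i, (y.1 i : ℝ) * x i + y.2) / d - (p : ℝ) / q|
            ≤ c / ((q : ℝ) ^ 2 * Real.log q ^ (1 + e)))).card : ℝ)
      ≤ 16 * c * ((M : ℝ) ^ m * d) / (q * Real.log q ^ (1 + e)) +
        24 * ((d : ℝ) * tq e c q *
          ∑ h ∈ Ico 1 ⌊1 / (2 * et c e d q)⌋₊, PM x M (s * (h * (q / Nat.gcd d q)))) := by
  intro he hc hd hs hq hx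
  set L : ℝ := Real.log q ^ (1 + e) with hL
  have hqR : (2 : ℝ) ≤ q := by exact_mod_cast hq
  have hq0 : (0 : ℝ) < q := by linarith
  have hlog : 0 < Real.log q := Real.log_pos (by linarith)
  have hL0 : 0 < L := Real.rpow_pos_of_pos hlog _
  set g : ℕ := Nat.gcd d q with hg
  have hg0 : 0 < g := Nat.gcd_pos_of_pos_left _ hd
  have hgd : g ∣ d := Nat.gcd_dvd_left _ _
  have hgq : g ∣ q := Nat.gcd_dvd_right _ _
  have hq'1 : 1 ≤ q / g := Nat.div_pos (Nat.le_of_dvd (by omega) hgq) hg0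
  have hd'1 : 1 ≤ d / g := Nat.div_pos (Nat.le_of_dvd (by omega) hgd) hg0
  have hη : 0 < et c e d q := by
    unfold et LL
    rw [← hg, ← hL]
    have : (0 : ℝ) < ((d / g : ℕ) : ℝ) := by exact_mod_cast hd'1
    positivity
  have hgη : (g : ℝ) * et c e d q = d * tq e c q := by
    unfold et tq LL
    rw [← hg, ← hL]
    have h1 : (g : ℝ) * ((d / g : ℕ) : ℝ) = d := by
      rw [← Nat.cast_mul, Nat.mul_div_cancel' hgd]
    calc (g : ℝ) * (c * ((d / g : ℕ) : ℝ) / (q * L)) = ((g : ℝ) * ((d / g : ℕ) : ℝ)) * (c / (q * L)) := by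
          ring
      _ = d * (c / (q * L)) := by rw [h1]
  set B := Fintype.piFinset (fun _ : Fin m => Icc 1 M) with hB
  have hBcard : (B.card : ℝ) = (M : ℝ) ^ m := by
    rw [hB, Fintype.card_piFinset]
    simp
  have h1 : ((B ×ˢ range d).filter (fun y : (Fin m → ℕ) × ℕ => ∃ p : ℤ,
      |((s : ℝ) * ∑ i, (y.1 i : ℝ) * x i + y.2) / d - (p : ℝ) / q| ≤ c / ((q : ℝ) ^ 2 * L))).card
      = ∑ a ∈ B, ((range d).filter (fun b : ℕ => ∃ p : ℤ,
        |((s : ℝ) * ∑ i, (a i : ℝ) * x i + b) / d - (p : ℝ) / q| ≤ c / ((q : ℝ) ^ 2 * L))).card := by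
    rw [Finset.card_filter, Finset.sum_product]
    refine Finset.sum_congr rfl fun a _ => ?_
    rw [Finset.card_filter]
  have h2 : ∀ a ∈ B, (((range d).filter (fun b : ℕ => ∃ p : ℤ,
      |((s : ℝ) * ∑ i, (a i : ℝ) * x i + b) / d - (p : ℝ) / q| ≤ c / ((q : ℝ) ^ 2 * L))).card : ℝ) ≤
      4 * c * d / (q * L) + (g : ℝ) *
      (if et c e d q < 1 / 2 ∧ nd (((s : ℝ) * ∑ i, (a i : ℝ) * x i) * ((q / g : ℕ) : ℝ)) ≤
        et c e d q then 1 else 0) := by
    intro a _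
    exact hC ((s : ℝ) * ∑ i, (a i : ℝ) * x i) c e d q hc hd hq
  rw [h1, Nat.cast_sum]
  refine (Finset.sum_le_sum h2).trans ?_
  rw [Finset.sum_add_distrib, ← Finset.mul_sum, Finset.sum_const, nsmul_eq_mul, hBcard]
  have h3 : (∑ a ∈ B, (if et c e d q < 1 / 2 ∧
      nd (((s : ℝ) * ∑ i, (a i : ℝ) * x i) * ((q / g : ℕ) : ℝ)) ≤ et c e d q then (1 : ℝ) else 0)) =
      ((B.filter (fun a : Fin m → ℕ => et c e d q < 1 / 2 ∧
        nd (((s : ℝ) * ∑ i, (a i : ℝ) * x i) * ((q / g : ℕ) : ℝ)) ≤ et c e d q)).card : ℝ) := by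
    rw [Finset.card_filter]
    push_cast
    rfl
  rw [h3]
  have h4 := W_bound hF m x (et c e d q) M s (q / g) hη hs hq'1 hx
  rw [← hB] at h4
  have h5 := mul_le_mul_of_nonneg_left h4 (Nat.cast_nonneg (α := ℝ) g)
  refine (add_le_add_right h5 _).trans (le_of_eq ?_)
  have h6 : (g : ℝ) * (12 * et c e d q * (M : ℝ) ^ m +
      24 * et c e d q * ∑ h ∈ Ico 1 ⌊1 / (2 * et c e d q)⌋₊, PM x M (s * (h * (q / g)))) =
      12 * ((g : ℝ) * et c e d q) * (M : ℝ) ^ m + 24 * (((g : ℝ) * et c e d q) *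
        ∑ h ∈ Ico 1 ⌊1 / (2 * et c e d q)⌋₊, PM x M (s * (h * (q / g)))) := by ring
  rw [h6, hgη]
  have h7 : 12 * ((d : ℝ) * tq e c q) * (M : ℝ) ^ m = 12 * c * ((M : ℝ) ^ m * d) / (q * L) := by
    unfold tq
    rw [← hL]
    ring
  rw [h7]
  ring

end Pool.Agent.Helper37.LFU
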